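import Pool.Agent.H801.Em2.Time

set_option autoImplicit false

namespace Pool.Agent.Results.MP_dc1a2c_lc.ColouredCubicAsHardAsGeneral

open Pool.Agent.NPC Pool.Agent.H801.Em Pool.Agent.H801.Em2

/-- There is a deterministic polynomial-time many-one reduction from the red-blue matching problem
on all graphs to the red-blue matching problem on 3-edge-colourable 3-regular graphs whose red edges
are pairwise disjoint; bipartite graphs are mapped to bipartite graphs. Hence the red-blue matching
problem has a deterministic polynomial-time algorithm on 3-regular graphs, or on 3-edge-colourable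
3-regular graphs with disjoint red edges, if and only if it has one on all graphs; and it has one on
bipartite 3-regular graphs with disjoint red edges if and only if it has one on bipartite graphs. -/
theorem result :
    (∃ F : List Bool → List Bool, PolyTime F ∧ ∀ I : Inst, WF I → ∃ J : Inst,
      F (bits I) = bits J ∧ WF J ∧ Cubic J ∧ Coloured3 J ∧ RedDisjoint J ∧ (Bip I → Bip J) ∧
        J.2.2 ≤ I.2.2 ∧ (Yes J ↔ Yes I)) ∧
    (HasAlg (fun I => Cubic I) ↔ HasAlg (fun _ => True)) ∧
    (HasAlg (fun I => Cubic I ∧ Coloured3 I ∧ RedDisjoint I) ↔ HasAlg (fun _ => True)) ∧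
    (HasAlg (fun I => Cubic I ∧ Coloured3 I ∧ RedDisjoint I ∧ Bip I) ↔
      HasAlg (fun I => Bip I)) := by
  refine ⟨reductionk, ⟨transfer fun I J _ _ h1 _ _ _ => h1, restrict fun _ _ => trivial⟩,
    ⟨transfer fun I J _ _ h1 h2 h3 _ => ⟨h1, h2, h3⟩, restrict fun _ _ => trivial⟩,
    ⟨transfer fun I J h _ h1 h2 h3 h4 => ⟨h1, h2, h3, h4 h⟩, restrict fun _ h => h.2.2.2⟩⟩

end Pool.Agent.Results.MP_dc1a2c_lc.ColouredCubicAsHardAsGeneral
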